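import Mathlib

/-!
# Two generating trees with the same descent polynomial: the algebra

States `A (a, b)` and `B (c, t, b)`. The first tree has the weights
`A (a,b) → B (c, a+1, b+1)` (`c < a`, weight `1`), `A (a, b+1)` (weight `1`),
`A (a+1+j, b-j)` (`j ≤ b`, weight `q`), and all moves out of `B` have weight `q`;
the second has `q, q, 1` for the moves out of `A`, `q` for `B → B` and `1` for `B → A`.
-/

namespace Pool.Agent.X228.FW

open Finset

variable {R : Type*} [CommRing R]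

/-- Sum of `A (x + j, c - 1 - j)`, `j < c`. -/
def S (g : ℕ → ℕ → R) (x : ℕ) : ℕ → R
  | 0 => 0
  | c + 1 => g x c + S g (x + 1) c

/-- Total weights of the first tree, `r` steps. -/
def V1 (q : R) : ℕ → (ℕ → ℕ → R) × (ℕ → ℕ → ℕ → R)
  | 0 => (fun _ _ => 1, fun _ _ _ => 1)
  | r + 1 => (fun a b => ∑ c ∈ range a, (V1 q r).2 c (a + 1) (b + 1) + (V1 q r).1 a (b + 1) +
      q * S (V1 q r).1 (a + 1) (b + 1),
    fun c t b => q * (∑ c' ∈ range (c + 1), (V1 q r).2 c' (t + 1) b + S (V1 q r).1 t (b + 1)))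

/-- Total weights of the second tree, `r` steps. -/
def V2 (q : R) : ℕ → (ℕ → ℕ → R) × (ℕ → ℕ → ℕ → R)
  | 0 => (fun _ _ => 1, fun _ _ _ => 1)
  | r + 1 => (fun a b => q * ∑ c ∈ range a, (V2 q r).2 c (a + 1) (b + 1) +
      q * (V2 q r).1 a (b + 1) + S (V2 q r).1 (a + 1) (b + 1),
    fun c t b => q * ∑ c' ∈ range (c + 1), (V2 q r).2 c' (t + 1) b + S (V2 q r).1 t (b + 1))

theorem mc_succ (n k : ℕ) :
    (Nat.multichoose (n + 1) (k + 1) : R) = Nat.multichoose n (k + 1) + Nat.multichoose (n + 1) k := by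
  rw [Nat.multichoose_succ_succ]; push_cast; ring

theorem mc_zero (n : ℕ) : (Nat.multichoose n 0 : R) = 1 := by
  rw [Nat.multichoose_zero_right]; simp

/-- Statement (R2). -/
def R2 (q : R) (r : ℕ) : Prop := ∀ x c, q * S (V1 q r).1 x c =
  (Nat.multichoose c (r + 1) : R) * (q - 1) ^ (r + 1) +
    ∑ i ∈ range (r + 1), (Nat.multichoose c i : R) * (q - 1) ^ i * S (V2 q (r - i)).1 x (c + i)

/-- Statement (R1). -/
def R1 (q : R) (r : ℕ) : Prop := ∀ a b, q * (V1 q (r + 1)).1 a b -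
    (q - 1) * (q * S (V1 q r).1 (a + 1) (b + 1)) =
  ∑ i ∈ range (r + 2), (Nat.multichoose (b + 1) i : R) * (q - 1) ^ i *
    (V2 q (r + 1 - i)).1 a (b + i)

/-- Statement (B). -/
def RB (q : R) (r : ℕ) : Prop := ∀ c t b, (V1 q r).2 c t b =
  ∑ i ∈ range (r + 1), (Nat.multichoose (b + 1) i : R) * (q - 1) ^ i *
    (V2 q (r - i)).2 c t (b + i)

theorem V2A_succ (q : R) (r a b : ℕ) : (V2 q (r + 1)).1 a b =
    q * ∑ c ∈ range a, (V2 q r).2 c (a + 1) (b + 1) + S (V2 q r).1 a (b + 2) +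
      (q - 1) * (V2 q r).1 a (b + 1) := by
  have h : S (V2 q r).1 a (b + 2) = (V2 q r).1 a (b + 1) + S (V2 q r).1 (a + 1) (b + 1) := rfl
  rw [h]
  show q * ∑ c ∈ range a, (V2 q r).2 c (a + 1) (b + 1) +
      q * (V2 q r).1 a (b + 1) + S (V2 q r).1 (a + 1) (b + 1) = _
  ring

theorem R2_zero (q : R) : R2 q 0 := by
  intro x c
  have h1 : ∀ x c : ℕ, S (V1 q 0).1 x c = (c : R) := by
    intro x c
    induction c generalizing x with
    | zero => simp [S]
    | succ c ih => show (V1 q 0).1 x c + S (V1 q 0).1 (x + 1) c = _; rw [ih]; simp [V1]; ring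
  have h2 : ∀ x c : ℕ, S (V2 q 0).1 x c = (c : R) := by
    intro x c
    induction c generalizing x with
    | zero => simp [S]
    | succ c ih => show (V2 q 0).1 x c + S (V2 q 0).1 (x + 1) c = _; rw [ih]; simp [V2]; ring
  rw [h1]
  simp only [zero_add, range_one, sum_singleton, pow_zero, pow_one, Nat.sub_zero, add_zero,
    Nat.multichoose_zero_right, Nat.multichoose_one_right, Nat.cast_one, h2]
  ring

theorem RB_zero (q : R) : RB q 0 := by
  intro c t b
  simp [V1, V2]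

theorem RB_succ (q : R) (r : ℕ) (h1 : RB q r) (h2 : R2 q r) : RB q (r + 1) := by
  intro c t b
  show q * (∑ c' ∈ range (c + 1), (V1 q r).2 c' (t + 1) b + S (V1 q r).1 t (b + 1)) = _
  rw [mul_add, h2 t (b + 1), sum_range_succ _ (r + 1)]
  have e1 : (V2 q (r + 1 - (r + 1))).2 c t (b + (r + 1)) = 1 := by simp [V2]
  rw [e1]
  have e2 : ∀ i ∈ range (r + 1), (Nat.multichoose (b + 1) i : R) * (q - 1) ^ i *
      (V2 q (r + 1 - i)).2 c t (b + i) =
      q * ∑ c' ∈ range (c + 1), (Nat.multichoose (b + 1) i : R) * (q - 1) ^ i *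
        (V2 q (r - i)).2 c' (t + 1) (b + i) +
      (Nat.multichoose (b + 1) i : R) * (q - 1) ^ i * S (V2 q (r - i)).1 t (b + 1 + i) := by
    intro i hi
    have hi' := mem_range.1 hi
    rw [show r + 1 - i = r - i + 1 by omega, show b + 1 + i = b + i + 1 by omega, ← mul_sum]
    show _ * (q * ∑ c' ∈ range (c + 1), (V2 q (r - i)).2 c' (t + 1) (b + i) +
      S (V2 q (r - i)).1 t (b + i + 1)) = _
    ring
  rw [sum_congr rfl e2, sum_add_distrib, ← mul_sum, sum_comm]
  have e3 : ∑ c' ∈ range (c + 1), (V1 q r).2 c' (t + 1) b =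
      ∑ y ∈ range (c + 1), ∑ x ∈ range (r + 1), (Nat.multichoose (b + 1) x : R) * (q - 1) ^ x *
        (V2 q (r - x)).2 y (t + 1) (b + x) := sum_congr rfl fun c' _ => h1 c' (t + 1) b
  rw [e3]
  ring

theorem R1_of (q : R) (r : ℕ) (h1 : RB q r) (h2 : R2 q r) : R1 q r := by
  intro a b
  have e0 : q * (V1 q (r + 1)).1 a b - (q - 1) * (q * S (V1 q r).1 (a + 1) (b + 1)) =
      q * ∑ c ∈ range a, (V1 q r).2 c (a + 1) (b + 1) + q * S (V1 q r).1 a (b + 2) := by
    have h : S (V1 q r).1 a (b + 2) = (V1 q r).1 a (b + 1) + S (V1 q r).1 (a + 1) (b + 1) := rfl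
    rw [h]
    show q * (∑ c ∈ range a, (V1 q r).2 c (a + 1) (b + 1) + (V1 q r).1 a (b + 1) +
      q * S (V1 q r).1 (a + 1) (b + 1)) - _ = _
    ring
  rw [e0, h2 a (b + 2)]
  have e3 : q * ∑ c ∈ range a, (V1 q r).2 c (a + 1) (b + 1) =
      ∑ i ∈ range (r + 1), (Nat.multichoose (b + 2) i : R) * (q - 1) ^ i *
        (q * ∑ c ∈ range a, (V2 q (r - i)).2 c (a + 1) (b + i + 1)) := by
    rw [sum_congr rfl fun c _ => h1 c (a + 1) (b + 1), sum_comm, mul_sum]
    refine sum_congr rfl fun i _ => ?_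
    rw [← mul_sum, show b + 1 + i = b + i + 1 by omega, show b + 1 + 1 = b + 2 from rfl]
    ring
  rw [e3]
  have e4 : ∀ i ∈ range (r + 1), (Nat.multichoose (b + 2) i : R) * (q - 1) ^ i *
        (q * ∑ c ∈ range a, (V2 q (r - i)).2 c (a + 1) (b + i + 1)) =
      (Nat.multichoose (b + 2) i : R) * (q - 1) ^ i * (V2 q (r + 1 - i)).1 a (b + i) -
      (Nat.multichoose (b + 2) i : R) * (q - 1) ^ (i + 1) * (V2 q (r + 1 - (i + 1))).1 a (b + (i + 1)) -
      (Nat.multichoose (b + 2) i : R) * (q - 1) ^ i * S (V2 q (r - i)).1 a (b + 2 + i) := by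
    intro i hi
    have hi' := mem_range.1 hi
    rw [show r + 1 - i = r - i + 1 by omega, V2A_succ, show r + 1 - (i + 1) = r - i by omega,
      show b + 2 + i = b + i + 2 by omega, show b + (i + 1) = b + i + 1 by omega]
    ring
  rw [sum_congr rfl e4, sum_sub_distrib, sum_sub_distrib]
  have e5 : ∑ i ∈ range (r + 2), (Nat.multichoose (b + 1) i : R) * (q - 1) ^ i *
      (V2 q (r + 1 - i)).1 a (b + i) =
      ∑ i ∈ range (r + 2), (Nat.multichoose (b + 2) i : R) * (q - 1) ^ i *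
        (V2 q (r + 1 - i)).1 a (b + i) -
      ∑ i ∈ range (r + 1), (Nat.multichoose (b + 2) i : R) * (q - 1) ^ (i + 1) *
        (V2 q (r + 1 - (i + 1))).1 a (b + (i + 1)) := by
    rw [sum_range_succ' _ (r + 1), sum_range_succ' _ (r + 1), mc_zero, mc_zero]
    have : ∑ k ∈ range (r + 1), (Nat.multichoose (b + 1) (k + 1) : R) * (q - 1) ^ (k + 1) *
          (V2 q (r + 1 - (k + 1))).1 a (b + (k + 1)) =
        ∑ k ∈ range (r + 1), (Nat.multichoose (b + 2) (k + 1) : R) * (q - 1) ^ (k + 1) *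
          (V2 q (r + 1 - (k + 1))).1 a (b + (k + 1)) -
        ∑ i ∈ range (r + 1), (Nat.multichoose (b + 2) i : R) * (q - 1) ^ (i + 1) *
          (V2 q (r + 1 - (i + 1))).1 a (b + (i + 1)) := by
      rw [← sum_sub_distrib]
      refine sum_congr rfl fun k _ => ?_
      rw [show b + 2 = b + 1 + 1 from rfl, mc_succ (b + 1) k]
      ring
    rw [this]
    ring
  rw [e5, sum_range_succ _ (r + 1)]
  have e6 : (V2 q (r + 1 - (r + 1))).1 a (b + (r + 1)) = 1 := by simp [V2]
  rw [e6]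
  ring

theorem R2_succ (q : R) (r : ℕ) (h1 : R1 q r) (h2 : R2 q r) : R2 q (r + 1) := by
  intro x c
  induction c generalizing x with
  | zero =>
    have : ∀ i ∈ range (r + 2), (Nat.multichoose 0 i : R) * (q - 1) ^ i *
        S (V2 q (r + 1 - i)).1 x (0 + i) = 0 := by
      intro i _
      rcases i with _ | i
      · simp [S]
      · simp [Nat.multichoose_zero_succ]
    rw [sum_congr rfl this]
    simp [S, Nat.multichoose_zero_succ]
  | succ c ih =>
    have e0 : S (V1 q (r + 1)).1 x (c + 1) = (V1 q (r + 1)).1 x c + S (V1 q (r + 1)).1 (x + 1) c := rfl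
    rw [e0, mul_add, ih (x + 1)]
    have e1 := h1 x c
    rw [sub_eq_iff_eq_add, h2 (x + 1) (c + 1)] at e1
    rw [e1]
    have e2 : ∀ i ∈ range (r + 1 + 1), (Nat.multichoose (c + 1) i : R) * (q - 1) ^ i *
        S (V2 q (r + 1 - i)).1 x (c + 1 + i) =
        (Nat.multichoose (c + 1) i : R) * (q - 1) ^ i * (V2 q (r + 1 - i)).1 x (c + i) +
        (Nat.multichoose (c + 1) i : R) * (q - 1) ^ i * S (V2 q (r + 1 - i)).1 (x + 1) (c + i) := by
      intro i _
      rw [show c + 1 + i = c + i + 1 by omega]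
      show _ * ((V2 q (r + 1 - i)).1 x (c + i) + S (V2 q (r + 1 - i)).1 (x + 1) (c + i)) = _
      ring
    rw [sum_congr rfl e2, sum_add_distrib]
    have e3 : ∑ i ∈ range (r + 1 + 1), (Nat.multichoose (c + 1) i : R) * (q - 1) ^ i *
          S (V2 q (r + 1 - i)).1 (x + 1) (c + i) =
        ∑ i ∈ range (r + 1 + 1), (Nat.multichoose c i : R) * (q - 1) ^ i *
          S (V2 q (r + 1 - i)).1 (x + 1) (c + i) +
        (q - 1) * ∑ i ∈ range (r + 1), (Nat.multichoose (c + 1) i : R) * (q - 1) ^ i *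
          S (V2 q (r - i)).1 (x + 1) (c + 1 + i) := by
      rw [sum_range_succ' _ (r + 1), sum_range_succ' _ (r + 1), mc_zero, mc_zero]
      have : ∑ k ∈ range (r + 1), (Nat.multichoose (c + 1) (k + 1) : R) * (q - 1) ^ (k + 1) *
            S (V2 q (r + 1 - (k + 1))).1 (x + 1) (c + (k + 1)) =
          ∑ k ∈ range (r + 1), (Nat.multichoose c (k + 1) : R) * (q - 1) ^ (k + 1) *
            S (V2 q (r + 1 - (k + 1))).1 (x + 1) (c + (k + 1)) +
          (q - 1) * ∑ i ∈ range (r + 1), (Nat.multichoose (c + 1) i : R) * (q - 1) ^ i *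
            S (V2 q (r - i)).1 (x + 1) (c + 1 + i) := by
        rw [mul_sum, ← sum_add_distrib]
        refine sum_congr rfl fun k _ => ?_
        rw [mc_succ c k, show r + 1 - (k + 1) = r - k by omega, show c + (k + 1) = c + 1 + k by omega]
        ring
      rw [this]
      ring
    rw [e3, mc_succ c (r + 1)]
    ring

theorem all (q : R) (r : ℕ) : RB q r ∧ R2 q r := by
  induction r with
  | zero => exact ⟨RB_zero q, R2_zero q⟩
  | succ r ih => exact ⟨RB_succ q r ih.1 ih.2, R2_succ q r (R1_of q r ih.1 ih.2) ih.2⟩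

theorem tele (q : R) (r k : ℕ) (hk : k ≤ r) :
    ∑ i ∈ range (k + 1), (q - 1) ^ i * S (V2 q (r - i)).1 0 (1 + i) =
      q * (V2 q r).1 0 0 - (q - 1) ^ (k + 1) * (V2 q (r - k)).1 0 k := by
  induction k with
  | zero =>
    simp only [zero_add, range_one, sum_singleton, pow_zero, pow_one, Nat.sub_zero, add_zero]
    have : S (V2 q r).1 0 1 = (V2 q r).1 0 0 + 0 := rfl
    rw [this]
    ring
  | succ k ih =>
    rw [sum_range_succ, ih (by omega)]
    obtain ⟨d, hd⟩ : ∃ d, r - k = d + 1 := ⟨r - k - 1, by omega⟩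
    have h2 : r - (k + 1) = d := by omega
    rw [hd, h2, V2A_succ q d 0 k, show 1 + (k + 1) = k + 2 by omega]
    simp only [range_zero, sum_empty]
    ring

/-- The two trees have the same total weights. -/
theorem V1_eq_V2 (q : R) (hq : ∀ x y : R, q * x = q * y → x = y) (r : ℕ) :
    (V1 q r).1 0 0 = (V2 q r).1 0 0 := by
  apply hq
  have h := (all q r).2 0 1
  have e0 : S (V1 q r).1 0 1 = (V1 q r).1 0 0 + 0 := rfl
  rw [e0, add_zero] at h
  have e1 : ∀ i, (Nat.multichoose 1 i : R) = 1 := fun i => by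
    rw [Nat.multichoose_one]; simp
  simp only [e1, one_mul] at h
  rw [h, tele q r r le_rfl, Nat.sub_self]
  simp [V2]

end Pool.Agent.X228.FW
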