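import Mathlib

/-!
# Insertion of a last entry into a permutation
-/

namespace Pool.Agent.X228.FW

open Finset Classical

/-- `f` restricted to `{0, ..., n-1}` is a permutation, and `f` is zero elsewhere. -/
structure PL (n : ℕ) (f : ℕ → ℕ) : Prop where
  zero : ∀ i, n ≤ i → f i = 0
  lt : ∀ i, i < n → f i < n
  inj : ∀ i, i < n → ∀ j, j < n → f i = f j → i = j

/-- Insertion of a last entry `a`. -/
def ins (n : ℕ) (f : ℕ → ℕ) (a : ℕ) : ℕ → ℕ := fun i =>
  if i < n then (if f i < a then f i else f i + 1) else if i = n then a else 0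

theorem ins_lt {n : ℕ} {f : ℕ → ℕ} {a i : ℕ} (h : i < n) :
    ins n f a i = if f i < a then f i else f i + 1 := by simp [ins, h]

theorem ins_last {n : ℕ} {f : ℕ → ℕ} {a : ℕ} : ins n f a n = a := by simp [ins]

theorem ins_gt {n : ℕ} {f : ℕ → ℕ} {a i : ℕ} (h : n < i) : ins n f a i = 0 := by
  simp [ins, not_lt.2 h.le, h.ne']

theorem ins_cmp {n : ℕ} {f : ℕ → ℕ} {a i j : ℕ} (hi : i < n) (hj : j < n) :
    ins n f a i < ins n f a j ↔ f i < f j := by
  rw [ins_lt hi, ins_lt hj]
  split_ifs <;> omega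

theorem ins_cmp_last {n : ℕ} {f : ℕ → ℕ} {a i : ℕ} (hi : i < n) :
    ins n f a i < ins n f a n ↔ f i < a := by
  rw [ins_lt hi, ins_last]
  split_ifs <;> omega

theorem ins_last_cmp {n : ℕ} {f : ℕ → ℕ} {a i : ℕ} (hi : i < n) :
    ins n f a n < ins n f a i ↔ a ≤ f i := by
  rw [ins_lt hi, ins_last]
  split_ifs <;> omega

theorem PL.surj {n : ℕ} {f : ℕ → ℕ} (h : PL n f) {v : ℕ} (hv : v < n) : ∃ i, i < n ∧ f i = v := by
  have h1 : Function.Injective fun i : Fin n => (⟨f i, h.lt i i.2⟩ : Fin n) := by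
    intro i j hij
    exact Fin.ext (h.inj i i.2 j j.2 (congrArg Fin.val hij))
  obtain ⟨i, hi⟩ := Finite.injective_iff_surjective.1 h1 ⟨v, hv⟩
  exact ⟨i, i.2, congrArg Fin.val hi⟩

theorem PL.insMem {n : ℕ} {f : ℕ → ℕ} (h : PL n f) {a : ℕ} (ha : a ≤ n) :
    PL (n + 1) (ins n f a) where
  zero i hi := ins_gt (by omega)
  lt i hi := by
    rcases Nat.lt_succ_iff_lt_or_eq.1 hi with h1 | h1
    · rw [ins_lt h1]; have := h.lt i h1; split_ifs <;> omega
    · rw [h1, ins_last]; omega
  inj i hi j hj hij := by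
    rcases Nat.lt_succ_iff_lt_or_eq.1 hi with h1 | h1 <;>
      rcases Nat.lt_succ_iff_lt_or_eq.1 hj with h2 | h2
    · rw [ins_lt h1, ins_lt h2] at hij
      apply h.inj i h1 j h2
      split_ifs at hij <;> omega
    · rw [ins_lt h1, h2, ins_last] at hij
      split_ifs at hij <;> omega
    · rw [ins_lt h2, h1, ins_last] at hij
      split_ifs at hij <;> omega
    · omega

theorem PL.exists_ins {n : ℕ} {F : ℕ → ℕ} (h : PL (n + 1) F) :
    ∃ f, PL n f ∧ F n ≤ n ∧ ins n f (F n) = F := by
  set a := F n with ha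
  have hne : ∀ i, i < n → F i ≠ a := fun i hi e => by
    have := h.inj i (by omega) n (by omega) e
    omega
  have han : a ≤ n := by have := h.lt n (by omega); omega
  refine ⟨fun i => if i < n then (if F i < a then F i else F i - 1) else 0, ?_, han, ?_⟩
  · constructor
    · intro i hi
      simp [not_lt.2 hi]
    · intro i hi
      have := h.lt i (by omega)
      have h2 := hne i hi
      simp only [hi, if_true]
      split_ifs <;> omega
    · intro i hi j hj hij
      apply h.inj i (by omega) j (by omega)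
      have h1 := hne i hi
      have h2 := hne j hj
      simp only [hi, hj, if_true] at hij
      split_ifs at hij <;> omega
  · funext i
    rcases lt_trichotomy i n with h1 | h1 | h1
    · rw [ins_lt h1]
      have e1 := hne i h1
      simp only [h1, if_true]
      split_ifs <;> omega
    · rw [h1, ins_last]
    · rw [ins_gt h1, h.zero i (by omega)]

theorem ins_injective {n : ℕ} {f f' : ℕ → ℕ} (h : PL n f) (h' : PL n f') {a a' : ℕ}
    (e : ins n f a = ins n f' a') : f = f' ∧ a = a' := by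
  have h1 := congrFun e n
  rw [ins_last, ins_last] at h1
  subst h1
  refine ⟨?_, rfl⟩
  funext i
  rcases Nat.lt_or_ge i n with h2 | h2
  · have h3 := congrFun e i
    rw [ins_lt h2, ins_lt h2] at h3
    split_ifs at h3 <;> omega
  · rw [h.zero i h2, h'.zero i h2]

/-- The permutations of length `m + 1`. -/
noncomputable def PM : ℕ → Finset (ℕ → ℕ)
  | 0 => {fun _ => 0}
  | m + 1 => (PM m).biUnion fun f => (range (m + 2)).image (ins (m + 1) f)

theorem mem_PM (m : ℕ) (f : ℕ → ℕ) : f ∈ PM m ↔ PL (m + 1) f := by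
  induction m generalizing f with
  | zero =>
    rw [PM, mem_singleton]
    constructor
    · rintro rfl
      exact ⟨fun _ _ => rfl, fun i hi => by omega, fun i hi j hj _ => by omega⟩
    · intro h
      funext i
      rcases Nat.eq_zero_or_pos i with h1 | h1
      · subst h1; have := h.lt 0 (by omega); omega
      · exact h.zero i (by omega)
  | succ m ih =>
    rw [PM, mem_biUnion]
    constructor
    · rintro ⟨g, hg, hf⟩
      obtain ⟨a, ha, rfl⟩ := mem_image.1 hf
      exact ((ih g).1 hg).insMem (by have := mem_range.1 ha; omega)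
    · intro h
      obtain ⟨g, hg, h1, h3⟩ := h.exists_ins
      exact ⟨g, (ih g).2 hg, mem_image.2 ⟨f (m + 1), mem_range.2 (by omega), h3⟩⟩

theorem sum_PM_succ {R : Type*} [AddCommMonoid R] (m : ℕ) (h : (ℕ → ℕ) → R) :
    ∑ F ∈ PM (m + 1), h F = ∑ f ∈ PM m, ∑ a ∈ range (m + 2), h (ins (m + 1) f a) := by
  rw [PM, sum_biUnion]
  · refine sum_congr rfl fun f hf => ?_
    have hPC := (mem_PM m f).1 hf
    rw [sum_image fun a _ a' _ e => (ins_injective hPC hPC e).2]
  · intro f hf f' hf' hne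
    rw [Function.onFun, Finset.disjoint_left]
    intro F h1 h2
    obtain ⟨a, _, rfl⟩ := mem_image.1 h1
    obtain ⟨a', _, e⟩ := mem_image.1 h2
    exact hne (ins_injective ((mem_PM m f').1 hf') ((mem_PM m f).1 hf) e).1.symm

/-- There is an ascending pair whose smaller entry is at least `v`. -/
def Inc (n : ℕ) (f : ℕ → ℕ) (v : ℕ) : Prop := ∃ i j, i < j ∧ j < n ∧ v ≤ f i ∧ f i < f j

/-- The least `v` without such a pair. -/
noncomputable def tau (n : ℕ) (f : ℕ → ℕ) : ℕ := sInf {v | ¬ Inc n f v}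

theorem inc_iff {n : ℕ} {f : ℕ → ℕ} (h : PL n f) (v : ℕ) : Inc n f v ↔ v < tau n f := by
  have hne : {v | ¬ Inc n f v}.Nonempty := by
    refine ⟨n, ?_⟩
    rintro ⟨i, j, h1, h2, h3, _⟩
    have := h.lt i (by omega)
    omega
  constructor
  · intro hv
    by_contra hc
    have h1 : ¬ Inc n f (tau n f) := Nat.sInf_mem hne
    obtain ⟨i, j, h2, h3, h4, h5⟩ := hv
    exact h1 ⟨i, j, h2, h3, by omega, h5⟩
  · intro hv
    by_contra hc
    have : tau n f ≤ v := Nat.sInf_le hc
    omega

theorem tau_eq {n : ℕ} {f : ℕ → ℕ} (h : PL n f) {t : ℕ} (ht : ∀ v, Inc n f v ↔ v < t) :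
    tau n f = t := by
  have h1 : ∀ v, v < tau n f ↔ v < t := fun v => (inc_iff h v).symm.trans (ht v)
  have h2 := h1 t
  have h3 := h1 (tau n f)
  omega

theorem inc_ins {n : ℕ} {f : ℕ → ℕ} (h : PL n f) {a : ℕ} (ha : a ≤ n) (v : ℕ) :
    Inc (n + 1) (ins n f a) v ↔ v < if a < tau n f then tau n f + 1 else a := by
  constructor
  · rintro ⟨i, j, h1, h2, h3, h4⟩
    rcases Nat.lt_succ_iff_lt_or_eq.1 h2 with h5 | h5
    · rw [ins_cmp (show i < n by omega) h5] at h4
      have h6 : f i < tau n f := (inc_iff h (f i)).1 ⟨i, j, h1, h5, le_rfl, h4⟩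
      rw [ins_lt (show i < n by omega)] at h3
      split_ifs at h3 ⊢ <;> omega
    · subst h5
      rw [ins_cmp_last h1] at h4
      rw [ins_lt h1, if_pos h4] at h3
      split_ifs <;> omega
  · intro hv
    split_ifs at hv with h1
    · obtain ⟨i, j, h2, h3, h4, h5⟩ := (inc_iff h (tau n f - 1)).2 (by omega)
      have h6 : f i < tau n f := (inc_iff h (f i)).1 ⟨i, j, h2, h3, le_rfl, h5⟩
      refine ⟨i, j, h2, by omega, ?_, (ins_cmp (by omega) h3).2 h5⟩
      rw [ins_lt (show i < n by omega), if_neg (by omega)]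
      omega
    · obtain ⟨i, h2, h3⟩ := h.surj (v := a - 1) (by omega)
      refine ⟨i, n, h2, by omega, ?_, (ins_cmp_last h2).2 (by omega)⟩
      rw [ins_lt h2, if_pos (by omega)]
      omega

theorem tau_ins {n : ℕ} {f : ℕ → ℕ} (h : PL n f) {a : ℕ} (ha : a ≤ n) :
    tau (n + 1) (ins n f a) = if a < tau n f then tau n f + 1 else a :=
  tau_eq (h.insMem ha) (inc_ins h ha)

/-- The weight: a factor `u` for every ascent, a factor `d` for every descent. -/
noncomputable def W {R : Type*} [CommRing R] (u d : R) (n : ℕ) (f : ℕ → ℕ) : R :=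
  ∏ c ∈ range (n - 1), if f c < f (c + 1) then u else d

theorem W_ins {R : Type*} [CommRing R] (u d : R) (m : ℕ) (f : ℕ → ℕ) (a : ℕ) :
    W u d (m + 2) (ins (m + 1) f a) = W u d (m + 1) f * if f m < a then u else d := by
  unfold W
  rw [show m + 2 - 1 = m + 1 by omega, show m + 1 - 1 = m by omega, prod_range_succ]
  congr 1
  · refine prod_congr rfl fun c hc => ?_
    have hc' := mem_range.1 hc
    simp only [ins_cmp (show c < m + 1 by omega) (show c + 1 < m + 1 by omega)]
  · simp only [ins_cmp_last (show m < m + 1 by omega)]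

/-- Valid states. -/
def Valid (n x t : ℕ) : Prop := x < n ∧ t < n ∧ (t = x ∨ x + 2 ≤ t)

theorem valid (m : ℕ) : ∀ f ∈ PM m, Valid (m + 1) (f m) (tau (m + 1) f) := by
  induction m with
  | zero =>
    intro f hf
    have h := (mem_PM 0 f).1 hf
    have h1 : f 0 = 0 := by have := h.lt 0 (by omega); omega
    have h2 : tau 1 f = 0 := tau_eq h fun v => by
      constructor
      · rintro ⟨i, j, h1, h2, _⟩; omega
      · intro h; omega
    rw [h1, h2]
    exact ⟨by omega, by omega, Or.inl rfl⟩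
  | succ m ih =>
    intro F hF
    rw [PM, mem_biUnion] at hF
    obtain ⟨f, hf, hF⟩ := hF
    obtain ⟨a, ha, rfl⟩ := mem_image.1 hF
    have ha' := mem_range.1 ha
    have h := (mem_PM m f).1 hf
    obtain ⟨h1, h2, h3⟩ := ih f hf
    rw [ins_last, tau_ins h (by omega)]
    unfold Valid
    split_ifs <;> omega

/-- One step of the generating tree. -/
theorem step {R : Type*} [CommRing R] (Av : ℕ → (ℕ → ℕ) → Prop) (al : ℕ → ℕ → ℕ → Prop)
    (h2 : ∀ m f a, PL (m + 1) f → a ≤ m + 1 →
      (Av (m + 2) (ins (m + 1) f a) ↔ Av (m + 1) f ∧ al (f m) (tau (m + 1) f) a))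
    (u d : R) (g : ℕ → ℕ → R) (m : ℕ) :
    ∑ F ∈ PM (m + 1), (if Av (m + 2) F then W u d (m + 2) F * g (F (m + 1)) (tau (m + 2) F) else 0) =
    ∑ f ∈ PM m, (if Av (m + 1) f then W u d (m + 1) f *
      (∑ a ∈ range (m + 2), if al (f m) (tau (m + 1) f) a then (if f m < a then u else d) *
        g a (if a < tau (m + 1) f then tau (m + 1) f + 1 else a) else 0) else 0) := by
  rw [sum_PM_succ]
  refine sum_congr rfl fun f hf => ?_
  have h := (mem_PM m f).1 hf
  by_cases hA : Av (m + 1) f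
  · rw [if_pos hA, mul_sum]
    refine sum_congr rfl fun a ha => ?_
    have ha' := mem_range.1 ha
    have e := h2 m f a h (by omega)
    by_cases hal : al (f m) (tau (m + 1) f) a
    · rw [if_pos (e.2 ⟨hA, hal⟩), if_pos hal, W_ins, ins_last, tau_ins h (by omega)]
      ring
    · rw [if_neg fun h' => hal (e.1 h').2, if_neg hal, mul_zero]
  · rw [if_neg hA]
    refine sum_eq_zero fun a ha => ?_
    have ha' := mem_range.1 ha
    rw [if_neg fun h' => hA ((h2 m f a h (by omega)).1 h').1]

/-- All steps. -/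
theorem total {R : Type*} [CommRing R] (Av : ℕ → (ℕ → ℕ) → Prop) (al : ℕ → ℕ → ℕ → Prop)
    (h1 : ∀ f, Av 1 f)
    (h2 : ∀ m f a, PL (m + 1) f → a ≤ m + 1 →
      (Av (m + 2) (ins (m + 1) f a) ↔ Av (m + 1) f ∧ al (f m) (tau (m + 1) f) a))
    (u d : R) (Φ : ℕ → ℕ → ℕ → ℕ → R)
    (h3 : ∀ r m x t, Valid (m + 1) x t → Φ (r + 1) (m + 1) x t =
      ∑ a ∈ range (m + 2), if al x t a then (if x < a then u else d) *
        Φ r (m + 2) a (if a < t then t + 1 else a) else 0) (m r : ℕ) :
    ∑ f ∈ PM m, (if Av (m + 1) f then W u d (m + 1) f * Φ r (m + 1) (f m) (tau (m + 1) f) else 0) =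
      Φ (r + m) 1 0 0 := by
  induction m generalizing r with
  | zero =>
    have h : PL 1 (fun _ => 0) := (mem_PM 0 _).1 (by rw [PM, mem_singleton])
    have h4 : tau 1 (fun _ => 0) = 0 := tau_eq h fun v => by
      constructor
      · rintro ⟨i, j, h1, h2, _⟩; omega
      · intro h; omega
    rw [PM, sum_singleton, if_pos (h1 _), zero_add, h4, add_zero]
    simp [W]
  | succ m ih =>
    rw [step Av al h2 u d (fun x t => Φ r (m + 2) x t) m, show r + (m + 1) = r + 1 + m by omega,
      ← ih (r + 1)]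
    refine sum_congr rfl fun f hf => ?_
    rw [h3 r m _ _ (valid m f hf)]

end Pool.Agent.X228.FW
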