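import Pool.Agent.X228.FW.Alg
import Pool.Agent.X228.FW.Perm

/-!
# The two classes follow the two trees
-/

namespace Pool.Agent.X228.FW

open Finset Classical

/-- First class. -/
def Av1 (n : ℕ) (f : ℕ → ℕ) : Prop :=
  ∀ i j c, i < j → j < c → c + 1 < n → ¬ (f (c + 1) < f c ∧ f c < f i ∧ f i < f j)

/-- Second class. -/
def Av2 (n : ℕ) (f : ℕ → ℕ) : Prop :=
  ∀ i j c, i < j → j < c → c + 1 < n → ¬ (f c < f (c + 1) ∧ f (c + 1) < f i ∧ f i < f j)

theorem av1_ins (m : ℕ) (f : ℕ → ℕ) (a : ℕ) (h : PL (m + 1) f) (_ : a ≤ m + 1) :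
    Av1 (m + 2) (ins (m + 1) f a) ↔ Av1 (m + 1) f ∧ (f m < a ∨ tau (m + 1) f ≤ f m + 1) := by
  constructor
  · intro H
    constructor
    · intro i j c h1 h2 h3
      have := H i j c h1 h2 (by omega)
      rwa [ins_cmp (show c + 1 < m + 1 by omega) (show c < m + 1 by omega),
        ins_cmp (show c < m + 1 by omega) (show i < m + 1 by omega),
        ins_cmp (show i < m + 1 by omega) (show j < m + 1 by omega)] at this
    · by_contra hc
      push Not at hc
      obtain ⟨i, j, h1, h2, h3, h4⟩ := (inc_iff h (f m + 1)).2 hc.2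
      have h5 : j ≠ m := by rintro rfl; omega
      apply H i j m h1 (by omega) (by omega)
      rw [ins_last_cmp (show m < m + 1 by omega),
        ins_cmp (show m < m + 1 by omega) (show i < m + 1 by omega),
        ins_cmp (show i < m + 1 by omega) (show j < m + 1 by omega)]
      exact ⟨hc.1, by omega, h4⟩
  · rintro ⟨H1, H2⟩ i j c h1 h2 h3
    rcases Nat.lt_or_ge (c + 1) (m + 1) with h4 | h4
    · rw [ins_cmp (show c + 1 < m + 1 by omega) (show c < m + 1 by omega),
        ins_cmp (show c < m + 1 by omega) (show i < m + 1 by omega),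
        ins_cmp (show i < m + 1 by omega) (show j < m + 1 by omega)]
      exact H1 i j c h1 h2 h4
    · obtain rfl : c = m := by omega
      rw [ins_last_cmp (show c < c + 1 by omega),
        ins_cmp (show c < c + 1 by omega) (show i < c + 1 by omega),
        ins_cmp (show i < c + 1 by omega) (show j < c + 1 by omega)]
      rintro ⟨h5, h6, h7⟩
      have := (inc_iff h (f c + 1)).1 ⟨i, j, h1, by omega, h6, h7⟩
      omega

theorem av2_ins (m : ℕ) (f : ℕ → ℕ) (a : ℕ) (h : PL (m + 1) f) (_ : a ≤ m + 1) :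
    Av2 (m + 2) (ins (m + 1) f a) ↔ Av2 (m + 1) f ∧ (a ≤ f m ∨ tau (m + 1) f ≤ a) := by
  constructor
  · intro H
    constructor
    · intro i j c h1 h2 h3
      have := H i j c h1 h2 (by omega)
      rwa [ins_cmp (show c < m + 1 by omega) (show c + 1 < m + 1 by omega),
        ins_cmp (show c + 1 < m + 1 by omega) (show i < m + 1 by omega),
        ins_cmp (show i < m + 1 by omega) (show j < m + 1 by omega)] at this
    · by_contra hc
      push Not at hc
      obtain ⟨i, j, h1, h2, h3, h4⟩ := (inc_iff h a).2 hc.2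
      have h5 : j ≠ m := by rintro rfl; omega
      apply H i j m h1 (by omega) (by omega)
      rw [ins_cmp_last (show m < m + 1 by omega),
        ins_last_cmp (show i < m + 1 by omega),
        ins_cmp (show i < m + 1 by omega) (show j < m + 1 by omega)]
      exact ⟨hc.1, h3, h4⟩
  · rintro ⟨H1, H2⟩ i j c h1 h2 h3
    rcases Nat.lt_or_ge (c + 1) (m + 1) with h4 | h4
    · rw [ins_cmp (show c < m + 1 by omega) (show c + 1 < m + 1 by omega),
        ins_cmp (show c + 1 < m + 1 by omega) (show i < m + 1 by omega),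
        ins_cmp (show i < m + 1 by omega) (show j < m + 1 by omega)]
      exact H1 i j c h1 h2 h4
    · obtain rfl : c = m := by omega
      rw [ins_cmp_last (show c < c + 1 by omega),
        ins_last_cmp (show i < c + 1 by omega),
        ins_cmp (show i < c + 1 by omega) (show j < c + 1 by omega)]
      rintro ⟨h5, h6, h7⟩
      have := (inc_iff h a).1 ⟨i, j, h1, by omega, h6, h7⟩
      omega

variable {R : Type*} [CommRing R]

theorem S_eq (g : ℕ → ℕ → R) (x c : ℕ) : S g x c = ∑ j ∈ range c, g (x + j) (c - 1 - j) := by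
  induction c generalizing x with
  | zero => simp [S]
  | succ c ih =>
    rw [sum_range_succ']
    show g x c + S g (x + 1) c = _
    rw [ih (x + 1), add_comm]
    congr 1
    refine sum_congr rfl fun j hj => ?_
    have := mem_range.1 hj
    rw [show x + 1 + j = x + (j + 1) by omega, show c - 1 - j = c + 1 - 1 - (j + 1) by omega]

/-- Weights of the states of the first class. -/
def P1 (q : R) (r n x t : ℕ) : R :=
  if t ≤ x then (V1 q r).1 x (n - 1 - x) else (V1 q r).2 (t - x - 2) t (n - t)

/-- Weights of the states of the second class. -/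
def P2 (q : R) (r n x t : ℕ) : R :=
  if t ≤ x then (V2 q r).1 x (n - 1 - x) else (V2 q r).2 x t (n - t)

theorem P1_succ (q : R) (r m x t : ℕ) (hv : Valid (m + 1) x t) : P1 q (r + 1) (m + 1) x t =
      ∑ a ∈ range (m + 2), if (x < a ∨ t ≤ x + 1) then (if x < a then q else 1) *
        P1 q r (m + 2) a (if a < t then t + 1 else a) else 0 := by
  obtain ⟨h1, h2, h3 | h3⟩ := hv
  · subst h3
    obtain ⟨b, rfl⟩ : ∃ b, m = t + b := ⟨m - t, by omega⟩
    rw [show t + b + 2 = t + (1 + (b + 1)) by omega, sum_range_add _ t (1 + (b + 1)), sum_range_add _ 1 (b + 1)]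
    have e1 : P1 q (r + 1) (t + b + 1) t t = (V1 q (r + 1)).1 t b := by
      unfold P1
      rw [if_pos le_rfl, show t + b + 1 - 1 - t = b by omega]
    rw [e1]
    show ∑ c ∈ range t, (V1 q r).2 c (t + 1) (b + 1) + (V1 q r).1 t (b + 1) +
      q * S (V1 q r).1 (t + 1) (b + 1) = _
    rw [add_assoc]
    congr 1
    · rw [← sum_range_reflect]
      refine sum_congr rfl fun a ha => ?_
      have ha' := mem_range.1 ha
      rw [if_pos (by omega), if_neg (by omega), if_pos ha', one_mul]
      unfold P1
      rw [if_neg (by omega), show t + 1 - a - 2 = t - 1 - a by omega,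
        show t + (1 + (b + 1)) - (t + 1) = b + 1 by omega]
    · congr 1
      · rw [range_one, sum_singleton, if_pos (by omega), if_neg (by omega), if_neg (by omega), one_mul]
        unfold P1
        rw [if_pos (by omega), show t + (1 + (b + 1)) - 1 - (t + 0) = b + 1 by omega, add_zero]
      · rw [S_eq, mul_sum]
        refine sum_congr rfl fun j hj => ?_
        have hj' := mem_range.1 hj
        rw [if_pos (by omega), if_pos (by omega), if_neg (by omega)]
        unfold P1
        rw [if_pos le_rfl, show t + (1 + (b + 1)) - 1 - (t + (1 + j)) = b + 1 - 1 - j by omega,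
          show t + (1 + j) = t + 1 + j by omega]
  · obtain ⟨c, rfl⟩ : ∃ c, t = x + 2 + c := ⟨t - (x + 2), by omega⟩
    obtain ⟨b, rfl⟩ : ∃ b, m = x + 2 + c + b := ⟨m - (x + 2 + c), by omega⟩
    rw [show x + 2 + c + b + 2 = (x + 1) + ((c + 1) + (b + 2)) by omega,
      sum_range_add _ (x + 1) ((c + 1) + (b + 2)), sum_range_add _ (c + 1) (b + 2)]
    have e1 : P1 q (r + 1) (x + 2 + c + b + 1) x (x + 2 + c) = (V1 q (r + 1)).2 c (x + 2 + c) (b + 1) := by
      unfold P1
      rw [if_neg (by omega), show x + 2 + c - x - 2 = c by omega,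
        show x + 2 + c + b + 1 - (x + 2 + c) = b + 1 by omega]
    rw [e1]
    show q * (∑ c' ∈ range (c + 1), (V1 q r).2 c' (x + 2 + c + 1) (b + 1) +
      S (V1 q r).1 (x + 2 + c) (b + 1 + 1)) = _
    have e2 : ∀ a ∈ range (x + 1), (if (x < a ∨ x + 2 + c ≤ x + 1) then (if x < a then q else 1) *
        P1 q r (x + 1 + (c + 1 + (b + 2))) a (if a < x + 2 + c then x + 2 + c + 1 else a) else 0) = 0 := by
      intro a ha
      have ha' := mem_range.1 ha
      rw [if_neg (by omega)]
    rw [sum_eq_zero e2, zero_add, mul_add]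
    congr 1
    · rw [← sum_range_reflect, mul_sum]
      refine sum_congr rfl fun j hj => ?_
      have hj' := mem_range.1 hj
      rw [if_pos (by omega), if_pos (by omega), if_pos (by omega)]
      unfold P1
      rw [if_neg (by omega), show x + 2 + c + 1 - (x + 1 + j) - 2 = c + 1 - 1 - j by omega,
        show x + 1 + (c + 1 + (b + 2)) - (x + 2 + c + 1) = b + 1 by omega]
    · rw [S_eq, mul_sum]
      refine sum_congr rfl fun j hj => ?_
      have hj' := mem_range.1 hj
      rw [if_pos (by omega), if_pos (by omega), if_neg (by omega)]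
      unfold P1
      rw [if_pos le_rfl, show x + 1 + (c + 1 + (b + 2)) - 1 - (x + 1 + (c + 1 + j)) = b + 1 + 1 - 1 - j by omega,
        show x + 1 + (c + 1 + j) = x + 2 + c + j by omega]

theorem P2_succ (q : R) (r m x t : ℕ) (hv : Valid (m + 1) x t) : P2 q (r + 1) (m + 1) x t =
      ∑ a ∈ range (m + 2), if (a ≤ x ∨ t ≤ a) then (if x < a then 1 else q) *
        P2 q r (m + 2) a (if a < t then t + 1 else a) else 0 := by
  obtain ⟨h1, h2, h3 | h3⟩ := hv
  · subst h3
    obtain ⟨b, rfl⟩ : ∃ b, m = t + b := ⟨m - t, by omega⟩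
    rw [show t + b + 2 = t + (1 + (b + 1)) by omega, sum_range_add _ t (1 + (b + 1)), sum_range_add _ 1 (b + 1)]
    have e1 : P2 q (r + 1) (t + b + 1) t t = (V2 q (r + 1)).1 t b := by
      unfold P2
      rw [if_pos le_rfl, show t + b + 1 - 1 - t = b by omega]
    rw [e1]
    show q * ∑ c ∈ range t, (V2 q r).2 c (t + 1) (b + 1) + q * (V2 q r).1 t (b + 1) +
      S (V2 q r).1 (t + 1) (b + 1) = _
    rw [add_assoc]
    congr 1
    · rw [mul_sum]
      refine sum_congr rfl fun a ha => ?_
      have ha' := mem_range.1 ha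
      rw [if_pos (by omega), if_neg (by omega), if_pos ha']
      unfold P2
      rw [if_neg (by omega), show t + (1 + (b + 1)) - (t + 1) = b + 1 by omega]
    · congr 1
      · rw [range_one, sum_singleton, if_pos (by omega), if_neg (by omega), if_neg (by omega)]
        unfold P2
        rw [if_pos (by omega), show t + (1 + (b + 1)) - 1 - (t + 0) = b + 1 by omega, add_zero]
      · rw [S_eq]
        refine sum_congr rfl fun j hj => ?_
        have hj' := mem_range.1 hj
        rw [if_pos (by omega), if_pos (by omega), if_neg (by omega), one_mul]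
        unfold P2
        rw [if_pos le_rfl, show t + (1 + (b + 1)) - 1 - (t + (1 + j)) = b + 1 - 1 - j by omega,
          show t + (1 + j) = t + 1 + j by omega]
  · obtain ⟨c, rfl⟩ : ∃ c, t = x + 2 + c := ⟨t - (x + 2), by omega⟩
    obtain ⟨b, rfl⟩ : ∃ b, m = x + 2 + c + b := ⟨m - (x + 2 + c), by omega⟩
    rw [show x + 2 + c + b + 2 = (x + 1) + ((c + 1) + (b + 2)) by omega,
      sum_range_add _ (x + 1) ((c + 1) + (b + 2)), sum_range_add _ (c + 1) (b + 2)]
    have e1 : P2 q (r + 1) (x + 2 + c + b + 1) x (x + 2 + c) = (V2 q (r + 1)).2 x (x + 2 + c) (b + 1) := by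
      unfold P2
      rw [if_neg (by omega), show x + 2 + c + b + 1 - (x + 2 + c) = b + 1 by omega]
    rw [e1]
    show q * ∑ c' ∈ range (x + 1), (V2 q r).2 c' (x + 2 + c + 1) (b + 1) +
      S (V2 q r).1 (x + 2 + c) (b + 1 + 1) = _
    congr 1
    · rw [mul_sum]
      refine sum_congr rfl fun a ha => ?_
      have ha' := mem_range.1 ha
      rw [if_pos (by omega), if_neg (by omega), if_pos (by omega)]
      unfold P2
      rw [if_neg (by omega), show x + 1 + (c + 1 + (b + 2)) - (x + 2 + c + 1) = b + 1 by omega]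
    · have e2 : ∀ j ∈ range (c + 1), (if (x + 1 + j ≤ x ∨ x + 2 + c ≤ x + 1 + j) then
          (if x < x + 1 + j then (1 : R) else q) * P2 q r (x + 1 + (c + 1 + (b + 2))) (x + 1 + j)
            (if x + 1 + j < x + 2 + c then x + 2 + c + 1 else x + 1 + j) else 0) = 0 := by
        intro j hj
        have hj' := mem_range.1 hj
        rw [if_neg (by omega)]
      rw [sum_eq_zero e2, zero_add, S_eq]
      refine sum_congr rfl fun j hj => ?_
      have hj' := mem_range.1 hj
      rw [if_pos (by omega), if_pos (by omega), if_neg (by omega), one_mul]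
      unfold P2
      rw [if_pos le_rfl, show x + 1 + (c + 1 + (b + 2)) - 1 - (x + 1 + (c + 1 + j)) = b + 1 + 1 - 1 - j by omega,
        show x + 1 + (c + 1 + j) = x + 2 + c + j by omega]

theorem sum1 (q : R) (m : ℕ) :
    ∑ f ∈ PM m, (if Av1 (m + 1) f then W q 1 (m + 1) f else 0) = (V1 q m).1 0 0 := by
  have h := total Av1 (fun x t a => x < a ∨ t ≤ x + 1)
    (fun f i j c h1 h2 h3 => by omega) av1_ins q 1 (P1 q)
    (fun r m x t hv => by convert P1_succ q r m x t hv) m 0
  rw [zero_add] at h
  have e : P1 q m 1 0 0 = (V1 q m).1 0 0 := by simp [P1]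
  rw [← e, ← h]
  refine sum_congr rfl fun f _ => ?_
  have : P1 q 0 (m + 1) (f m) (tau (m + 1) f) = 1 := by
    unfold P1; split_ifs <;> simp [V1]
  rw [this, mul_one]

theorem sum2 (q : R) (m : ℕ) :
    ∑ f ∈ PM m, (if Av2 (m + 1) f then W 1 q (m + 1) f else 0) = (V2 q m).1 0 0 := by
  have h := total Av2 (fun x t a => a ≤ x ∨ t ≤ a)
    (fun f i j c h1 h2 h3 => by omega) av2_ins 1 q (P2 q)
    (fun r m x t hv => by convert P2_succ q r m x t hv) m 0
  rw [zero_add] at h
  have e : P2 q m 1 0 0 = (V2 q m).1 0 0 := by simp [P2]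
  rw [← e, ← h]
  refine sum_congr rfl fun f _ => ?_
  have : P2 q 0 (m + 1) (f m) (tau (m + 1) f) = 1 := by
    unfold P2; split_ifs <;> simp [V2]
  rw [this, mul_one]

end Pool.Agent.X228.FW
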